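import Pool.Agent.EDX.Stmts2

/-! # Row RED of squad EDX -/

set_option autoImplicit false

namespace Pool.Agent.EDX.H70

open Polynomial Finset Module Pool.Agent.EDG

/-- the cast map `ℤ ^ ι → ℚ ^ ι` -/
noncomputable def cst (ι : Type) : (ι → ℤ) →ₗ[ℤ] (ι → ℚ) where
  toFun v i := ((v i : ℤ) : ℚ)
  map_add' v w := by ext i; simp
  map_smul' a v := by ext i; simp

theorem cst_apply {ι : Type} (v : ι → ℤ) (i : ι) : cst ι v i = ((v i : ℤ) : ℚ) := rfl

theorem cst_inj (ι : Type) : Function.Injective (cst ι) := by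
  intro v w h
  ext i
  have := congrFun h i
  rw [cst_apply, cst_apply] at this
  exact_mod_cast this

/-- the integral points of `S` -/
noncomputable def lat {ι : Type} (S : Submodule ℚ (ι → ℚ)) : Submodule ℤ (ι → ℤ) :=
  (S.restrictScalars ℤ).comap (cst ι)

theorem mem_lat {ι : Type} (S : Submodule ℚ (ι → ℚ)) (v : ι → ℤ) : v ∈ lat S ↔ cst ι v ∈ S :=
  Iff.rfl

/-- common denominator -/
theorem denom {ι : Type} [Fintype ι] (x : ι → ℚ) :
    ∃ (d : ℤ) (y : ι → ℤ), d ≠ 0 ∧ cst ι y = (d : ℚ) • x := by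
  classical
  obtain ⟨b, hb⟩ := IsLocalization.exist_integer_multiples_of_finset (nonZeroDivisors ℤ)
    (Finset.univ.image x)
  have h1 : ∀ i, ∃ a : ℤ, ((a : ℤ) : ℚ) = ((b : ℤ) : ℚ) * x i := by
    intro i
    obtain ⟨a, ha⟩ := hb (x i) (Finset.mem_image_of_mem _ (Finset.mem_univ i))
    refine ⟨a, ?_⟩
    have h2 : algebraMap ℤ ℚ a = (b : ℤ) • x i := ha
    rw [zsmul_eq_mul] at h2
    exact h2
  choose y hy using h1
  refine ⟨(b : ℤ), y, nonZeroDivisors.coe_ne_zero b, ?_⟩
  ext i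
  rw [cst_apply, hy i]
  rfl

theorem finrank_lat {ι : Type} [Fintype ι] (S : Submodule ℚ (ι → ℚ)) :
    finrank ℤ (lat S) = finrank ℚ S := by
  set r := finrank ℤ (lat S) with hr
  have b : Basis (Fin r) ℤ (lat S) := Module.finBasis ℤ (lat S)
  have hm : ∀ j, cst ι (b j : ι → ℤ) ∈ S := fun j => (b j).2
  -- independence
  have h1 : LinearIndependent ℤ (fun j => (b j : ι → ℤ)) :=
    b.linearIndependent.map' (lat S).subtype (lat S).ker_subtype
  have h2 : LinearIndependent ℤ (fun j => cst ι (b j : ι → ℤ)) :=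
    h1.map' (cst ι) (LinearMap.ker_eq_bot.mpr (cst_inj ι))
  have h3 : LinearIndependent ℚ (fun j => cst ι (b j : ι → ℤ)) :=
    (LinearIndependent.iff_fractionRing ℤ ℚ).mp h2
  have h4 : LinearIndependent ℚ (fun j => (⟨cst ι (b j : ι → ℤ), hm j⟩ : S)) := by
    apply LinearIndependent.of_comp S.subtype
    exact h3
  have h5 : ⊤ ≤ Submodule.span ℚ (Set.range fun j => (⟨cst ι (b j : ι → ℤ), hm j⟩ : S)) := by
    rintro ⟨x, hx⟩ _
    obtain ⟨d, y, hd, hy⟩ := denom x
    have hyl : y ∈ lat S := by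
      rw [mem_lat, hy]
      exact S.smul_mem _ hx
    have h6 : (∑ j, b.repr ⟨y, hyl⟩ j • b j : lat S) = ⟨y, hyl⟩ := b.sum_repr _
    have h7 : y = ∑ j, b.repr ⟨y, hyl⟩ j • (b j : ι → ℤ) := by
      have := congrArg (fun z : lat S => (z : ι → ℤ)) h6
      simp only [Submodule.coe_sum, Submodule.coe_smul] at this
      exact this.symm
    have h8 : x = ∑ j, ((d : ℚ)⁻¹ * (b.repr ⟨y, hyl⟩ j : ℚ)) • cst ι (b j : ι → ℤ) := by
      have hd' : (d : ℚ) ≠ 0 := by exact_mod_cast hd
      have h9 : x = (d : ℚ)⁻¹ • cst ι y := by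
        rw [hy, smul_smul, inv_mul_cancel₀ hd', one_smul]
      rw [h9]
      conv_lhs => rw [h7]
      rw [map_sum, Finset.smul_sum]
      refine Finset.sum_congr rfl fun j _ => ?_
      rw [map_smul, mul_smul]
      congr 1
    have h10 : (⟨x, hx⟩ : S) = ∑ j, ((d : ℚ)⁻¹ * (b.repr ⟨y, hyl⟩ j : ℚ)) •
        (⟨cst ι (b j : ι → ℤ), hm j⟩ : S) := by
      apply Subtype.ext
      simp only [Submodule.coe_sum, Submodule.coe_smul]
      exact h8
    rw [h10]
    exact Submodule.sum_mem _ fun j _ =>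
      Submodule.smul_mem _ _ (Submodule.subset_span ⟨j, rfl⟩)
  have h11 := Module.finrank_eq_card_basis (Basis.mk h4 h5)
  rw [Fintype.card_fin] at h11
  exact h11.symm

/-- extension of the field -/
theorem li_ext {ι : Type} {r : ℕ} (b : Fin r → ι → ℤ)
    (h : LinearIndependent (ZMod 2) (fun j i => ((b j i : ℤ) : ZMod 2))) :
    LinearIndependent FF (fun j i => ((b j i : ℤ) : FF)) := by
  rw [Fintype.linearIndependent_iff] at h ⊢
  intro a ha j
  rw [← Module.forall_dual_apply_eq_zero_iff (ZMod 2)]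
  intro l
  refine h (fun j => l (a j)) ?_ j
  ext i
  have h1 := congrFun ha i
  simp only [Finset.sum_apply, Pi.smul_apply, smul_eq_mul, Pi.zero_apply] at h1 ⊢
  have h2 := congrArg l h1
  rw [map_sum, map_zero] at h2
  rw [← h2]
  refine Finset.sum_congr rfl fun k _ => ?_
  have h3 : a k * ((b k i : ℤ) : FF) = ((b k i : ℤ) : ZMod 2) • a k := by
    rw [Algebra.smul_def, map_intCast, mul_comm]
  rw [h3, map_smul, smul_eq_mul, mul_comm]

/-- independence modulo `2` -/
theorem li_two {ι : Type} [Fintype ι] (S : Submodule ℚ (ι → ℚ)) {r : ℕ}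
    (b : Basis (Fin r) ℤ (lat S)) :
    LinearIndependent (ZMod 2) (fun j i => (((b j : ι → ℤ) i : ℤ) : ZMod 2)) := by
  rw [Fintype.linearIndependent_iff]
  intro a ha j
  have h1 : ∀ i, (2 : ℤ) ∣ ∑ k, ((a k).val : ℤ) * (b k : ι → ℤ) i := by
    intro i
    have h2 := congrFun ha i
    simp only [Finset.sum_apply, Pi.smul_apply, smul_eq_mul, Pi.zero_apply] at h2
    have h12 : ((∑ k, ((a k).val : ℤ) * (b k : ι → ℤ) i : ℤ) : ZMod 2) = 0 := by
      push_cast
      rw [← h2]
      refine Finset.sum_congr rfl fun k _ => ?_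
      rw [ZMod.natCast_zmod_val]
    exact_mod_cast (ZMod.intCast_zmod_eq_zero_iff_dvd _ 2).mp h12
  choose v hv using h1
  have h3 : (∑ k, ((a k).val : ℤ) • (b k : ι → ℤ)) = (2 : ℤ) • v := by
    ext i
    simp only [Finset.sum_apply, Pi.smul_apply, smul_eq_mul]
    exact hv i
  have h4 : v ∈ lat S := by
    rw [mem_lat]
    have h5 : cst ι ((2 : ℤ) • v) ∈ S := by
      rw [← h3, map_sum]
      refine Submodule.sum_mem _ fun k _ => ?_
      rw [map_smul]
      have := (b k).2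
      rw [mem_lat] at this
      have h6 : ((a k).val : ℤ) • cst ι (b k : ι → ℤ) =
          (((a k).val : ℤ) : ℚ) • cst ι (b k : ι → ℤ) := by
        ext i; simp
      rw [h6]
      exact S.smul_mem _ this
    have h7 : cst ι v = (2 : ℚ)⁻¹ • cst ι ((2 : ℤ) • v) := by
      ext i
      rw [Pi.smul_apply, cst_apply, cst_apply, Pi.smul_apply, smul_eq_mul, smul_eq_mul]
      push_cast
      ring
    rw [h7]
    exact S.smul_mem _ h5
  have h8 : (∑ k, ((a k).val : ℤ) • b k) = (2 : ℤ) • (⟨v, h4⟩ : lat S) := by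
    apply Subtype.ext
    simp only [Submodule.coe_sum, Submodule.coe_smul]
    exact h3
  have h9 := congrArg (fun z => b.repr z j) h8
  simp only [Basis.repr_sum_self, map_smul, Finsupp.smul_apply, smul_eq_mul] at h9
  have h10 : (a j) = (((a j).val : ℤ) : ZMod 2) := by
    push_cast
    rw [ZMod.natCast_zmod_val]
  rw [h10, h9]
  push_cast
  rw [show (2 : ZMod 2) = 0 from by decide, zero_mul]

theorem red : RedStmt := by
  intro ι _ S
  have b : Basis (Fin (finrank ℤ (lat S))) ℤ (lat S) := Module.finBasis ℤ (lat S)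
  rw [← finrank_lat S]
  refine ⟨fun j => (b j : ι → ℤ), fun j => ?_, ?_⟩
  · exact (b j).2
  · exact li_ext _ (li_two S b)

end Pool.Agent.EDX.H70
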